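import Mathlib
import Pool.Agent.N988.ED.Stm
import Pool.Agent.N713.EA_GAP

/-!
# Slow mixing on hierarchical lattices: growth of the effective coupling (core)
-/

open MeasureTheory Set Filter
open scoped ENNReal Topology
open Pool.Agent.N988.EA
open Pool.Agent.N988.ED

namespace Pool.Agent.N360.ED

noncomputable section

lemma card_vert_succ (b n : ℕ) :
    Fintype.card (Vert b (n + 1)) = b + b * (2 * Fintype.card (Vert b n)) := by
  have h : Fintype.card (Vert b (n + 1)) =
      Fintype.card (Fin b ⊕ (Fin b × Bool × Vert b n)) := rfl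
  rw [h, Fintype.card_sum, Fintype.card_prod, Fintype.card_prod, Fintype.card_fin,
    Fintype.card_bool]

lemma card_pt (b n : ℕ) : Fintype.card (Pt b n) = 2 + Fintype.card (Vert b n) := by
  rw [Fintype.card_sum, Fintype.card_bool]

lemma card_le (b : ℕ) (hb : 1 ≤ b) : ∀ n : ℕ, Fintype.card (Pt b n) ≤ (4 * b) ^ (n + 1) := by
  intro n
  induction n with
  | zero =>
    rw [card_pt]
    have h : Fintype.card (Vert b 0) = 0 := by
      have h : Fintype.card (Vert b 0) = Fintype.card Empty := rfl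
      rw [h]; rfl
    rw [h]
    simp
    omega
  | succ n ih =>
    rw [card_pt] at ih ⊢
    rw [card_vert_succ, pow_succ]
    have h1 : (2 + Fintype.card (Vert b n)) * (4 * b) ≤ (4 * b) ^ (n + 1) * (4 * b) :=
      Nat.mul_le_mul_right _ ih
    refine le_trans ?_ h1
    nlinarith [Nat.zero_le (Fintype.card (Vert b n)), Nat.zero_le (b * Fintype.card (Vert b n))]

theorem GRW_of (h1 : S_WIN) (h2 : S_H) : S_GRW := by
  intro b hb μ hμ hsym r hr hwin
  obtain ⟨C, q, hC, hq0, hq1, c, hc, R₀, hR₀, hW⟩ := h1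
  have hb1 : (1 : ℝ) < 4 * b := by
    have : (4 : ℝ) ≤ b := by exact_mod_cast hb
    linarith
  have hL : 0 < Real.log (4 * b) := Real.log_pos hb1
  have hlq : Real.log q < 0 := Real.log_neg hq0 hq1
  set s : ℝ := Real.exp (-Real.log q / 4) with hs
  have hs0 : 0 < s := Real.exp_pos _
  have hsq : s * q < 1 := by
    have h3 : s * q = Real.exp (3 * Real.log q / 4) := by
      conv_lhs => rw [← Real.exp_log hq0]
      rw [hs, ← Real.exp_add]
      congr 1
      ring
    rw [h3, Real.exp_lt_one_iff]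
    linarith
  set ε : ℝ := -Real.log q / (4 * Real.log (4 * b)) with hε
  have hε0 : 0 < ε := by
    rw [hε]
    exact div_pos (by linarith) (by linarith)
  have hbs : ((4 : ℝ) * b) ^ ε = s := by
    rw [Real.rpow_def_of_pos (by linarith), hs]
    congr 1
    rw [hε]
    field_simp
  have hN : ∀ n : ℕ, (Fintype.card (Pt b n) : ℝ) ^ ε ≤ s ^ (n + 1) := by
    intro n
    have h3 : (Fintype.card (Pt b n) : ℝ) ≤ (4 * b) ^ (n + 1) := by
      exact_mod_cast card_le b (by omega) n
    refine (Real.rpow_le_rpow (Nat.cast_nonneg _) h3 hε0.le).trans (le_of_eq ?_)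
    rw [← Real.rpow_natCast, ← Real.rpow_mul (by linarith), mul_comm (((n + 1 : ℕ) : ℝ)) ε,
      Real.rpow_mul (by linarith), hbs, Real.rpow_natCast]
  refine ⟨R₀ / r, ε, by positivity, hε0, fun β hβ => ?_⟩
  have hβ1 : R₀ ≤ β * r := by
    rw [← div_le_iff₀ hr]
    exact hβ
  have hβ0 : 0 < β := by
    have h5 : 0 < β * r := lt_of_lt_of_le hR₀ hβ1
    exact (pos_iff_pos_of_mul_pos h5).2 hr
  have hmm : Measurable fun x : ℝ => β * x := measurable_const_mul β
  set μβ : Measure ℝ := μ.map fun x => β * x with hμβ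
  have : IsProbabilityMeasure μβ := Measure.isProbabilityMeasure_map hmm.aemeasurable
  have hsβ : μβ.map (fun x => -x) = μβ := by
    rw [hμβ, Measure.map_map measurable_neg hmm]
    have h5 : (fun x : ℝ => -x) ∘ (fun x => β * x) = (fun x => β * x) ∘ fun x => -x := by
      funext x
      simp
    rw [h5, ← Measure.map_map hmm measurable_neg, hsym]
  have hwβ : ∀ x, μβ (Ico x (x + β * r)) ≤ 1 / 2 := by
    intro x
    rw [hμβ, Measure.map_apply hmm measurableSet_Ico]
    refine (measure_mono ?_).trans (hwin (x / β))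
    intro y hy
    obtain ⟨h5, h6⟩ := hy
    refine ⟨?_, ?_⟩
    · rw [div_le_iff₀ hβ0]
      linarith
    · have h7 : β * y < β * (x / β + r) := by
        rw [mul_add, mul_div_cancel₀ _ hβ0.ne']
        exact h6
      exact lt_of_mul_lt_mul_left h7 hβ0.le
  have hW' := hW b μβ hb hsβ (β * r) hβ1 hwβ
  set w : ℝ := c * (β * r) with hwd
  have hw0 : 0 < w := by positivity
  set T : ℕ → ℝ := fun n => s ^ (n + 1) + Real.log 8 with hT
  have hl8 : 0 < Real.log 8 := Real.log_pos (by norm_num)
  have hT0 : ∀ n, 0 < T n := fun n => by positivity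
  set B : ℕ → ℝ := fun n => 2 * ((T n / w + 1) * (C * q ^ n)) with hB
  have hB0 : ∀ n, 0 ≤ B n := fun n => by
    have := hT0 n
    positivity
  have hBt : Tendsto B atTop (𝓝 0) := by
    have e1 : Tendsto (fun n : ℕ => (s * q) ^ n) atTop (𝓝 0) :=
      tendsto_pow_atTop_nhds_zero_of_lt_one (by positivity) hsq
    have e2 : Tendsto (fun n : ℕ => q ^ n) atTop (𝓝 0) :=
      tendsto_pow_atTop_nhds_zero_of_lt_one hq0.le hq1
    have e3 : Tendsto (fun n : ℕ => 2 * C * s / w * (s * q) ^ n +
        2 * C * (Real.log 8 / w + 1) * q ^ n) atTop (𝓝 0) := by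
      have := (e1.const_mul (2 * C * s / w)).add (e2.const_mul (2 * C * (Real.log 8 / w + 1)))
      simpa using this
    refine e3.congr fun n => ?_
    simp only [hB, hT]
    rw [mul_pow, pow_succ]
    field_simp
    ring
  -- the bad event
  have hbad : ∀ n : ℕ, (Measure.pi fun _ : Edge b n => μ)
      {J | |K n (fun e => β * J e)| < T n / 2} ≤ ENNReal.ofReal (B n) := by
    intro n
    obtain ⟨h5, h6, -⟩ := h2 μβ b n
    have h4 : P μβ b n =
        (Measure.pi fun _ : Edge b n => μ).map fun (J : Edge b n → ℝ) e => β * J e := by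
      unfold P
      rw [hμβ, Measure.pi_map_pi fun _ => hmm.aemeasurable]
    have hm : Measurable fun (J : Edge b n → ℝ) e => β * J e :=
      measurable_pi_lambda _ fun e => hmm.comp (measurable_pi_apply e)
    have hms : MeasurableSet {x : ℝ | |(|(0 : ℝ)| - |x|)| < T n / 2} := by
      have : Continuous fun x : ℝ => |(|(0 : ℝ)| - |x|)| := by fun_prop
      exact (isOpen_lt this continuous_const).measurableSet
    have h7 : (lw μβ b n) {x : ℝ | |(|(0 : ℝ)| - |x|)| < T n / 2} =
        (Measure.pi fun _ : Edge b n => μ) {J | |K n (fun e => β * J e)| < T n / 2} := by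
      rw [← h6, h4, Measure.map_map h5 hm, Measure.map_apply (h5.comp hm) hms]
      congr 1
      ext J
      simp
    rw [← h7]
    obtain ⟨m, hm1, hm2⟩ : ∃ m : ℕ, 2 * (T n / 2) ≤ m * w ∧ (m : ℝ) ≤ T n / w + 1 := by
      refine ⟨⌈T n / w⌉₊, ?_, (Nat.ceil_lt_add_one (div_nonneg (hT0 n).le hw0.le)).le⟩
      have h8 := Nat.le_ceil (T n / w)
      rw [div_le_iff₀ hw0] at h8
      linarith
    refine (Pool.Agent.N713.EA.cover (lw μβ b n) w (T n / 2) hw0.le _ (hW' n) m hm1 0).trans ?_
    have e1 : (m : ℝ≥0∞) = ENNReal.ofReal m := by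
      rw [ENNReal.ofReal_natCast]
    have e2 : (2 : ℝ≥0∞) = ENNReal.ofReal 2 := by
      rw [ENNReal.ofReal_ofNat]
    rw [e1, e2, ← ENNReal.ofReal_mul (by positivity), ← ENNReal.ofReal_mul (by positivity)]
    refine ENNReal.ofReal_le_ofReal ?_
    simp only [hB]
    have : 0 ≤ C * q ^ n := by positivity
    nlinarith [mul_le_mul_of_nonneg_right hm2 this]
  have hmeas : ∀ n : ℕ, MeasurableSet {J : Edge b n → ℝ | |K n (fun e => β * J e)| < T n / 2} := by
    intro n
    obtain ⟨h5, -⟩ := h2 μβ b n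
    have hm : Measurable fun (J : Edge b n → ℝ) e => β * J e :=
      measurable_pi_lambda _ fun e => hmm.comp (measurable_pi_apply e)
    exact measurableSet_lt (h5.comp hm).abs measurable_const
  refine tendsto_of_tendsto_of_tendsto_of_le_of_le (g := fun n => 1 - ENNReal.ofReal (B n))
    ?_ tendsto_const_nhds ?_ ?_
  · have e1 : Tendsto (fun n => ENNReal.ofReal (B n)) atTop (𝓝 0) := by
      have h12 := (ENNReal.continuous_ofReal.tendsto 0).comp hBt
      rw [ENNReal.ofReal_zero] at h12
      exact h12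
    have e2 := ENNReal.Tendsto.sub (tendsto_const_nhds (x := (1 : ℝ≥0∞)) (f := atTop (α := ℕ))) e1
      (Or.inl ENNReal.one_ne_top)
    simpa using e2
  · intro n
    have h8 : 1 - ENNReal.ofReal (B n) ≤ (Measure.pi fun _ : Edge b n => μ)
        {J | |K n (fun e => β * J e)| < T n / 2}ᶜ := by
      rw [prob_compl_eq_one_sub (hmeas n)]
      exact tsub_le_tsub_left (hbad n) _
    refine h8.trans (measure_mono fun J hJ => ?_)
    have h9 : T n / 2 ≤ |K n (fun e => β * J e)| := not_lt.1 hJ
    show Real.exp ((Fintype.card (Pt b n) : ℝ) ^ ε) ≤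
        Real.exp (2 * |K n (fun e => β * J e)|) / 8
    rw [le_div_iff₀ (by norm_num)]
    have h10 : Real.exp ((Fintype.card (Pt b n) : ℝ) ^ ε) * 8 =
        Real.exp ((Fintype.card (Pt b n) : ℝ) ^ ε + Real.log 8) := by
      rw [Real.exp_add, Real.exp_log (by norm_num)]
    rw [h10]
    refine Real.exp_le_exp.2 ?_
    have h11 := hN n
    simp only [hT] at h9
    linarith
  · intro n
    exact prob_le_one

end

end Pool.Agent.N360.ED
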